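import Pool.Agent.MP_3ce0a0_al.H79.Y3B

/-
The count of the dimensions of the sectors.
-/

namespace Pool.Agent.MP_3ce0a0_al.H79.Y

open Equiv Module

namespace H6

variable {H : Type} [AddCommGroup H] [Module ℂ H] [FiniteDimensional ℂ H]

lemma tr_inv (t e : End ℂ H) (ht : t * t = 1) (he : e * e = e) (hc : t * e = e * t) :
    ∃ n : ℕ, LinearMap.trace ℂ H (t * e) = LinearMap.trace ℂ H e - 2 * n ∧
      (n = 0 → ∀ v, t (e v) = e v) := by
  set f : End ℂ H := (1 / 2 : ℂ) • (e - t * e) with hf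
  have h1 : e * (t * e) = t * e := by rw [← mul_assoc, ← hc, mul_assoc, he]
  have h2 : t * e * e = t * e := by rw [mul_assoc, he]
  have h3 : t * e * (t * e) = e := by rw [mul_assoc, h1, ← mul_assoc, ht, one_mul]
  have hi : IsIdempotentElem f := by
    change f * f = f
    rw [hf, smul_mul_smul_comm, sub_mul, mul_sub, mul_sub, he, h1, h2, h3]
    module
  have htr := (LinearMap.IsIdempotentElem.isProj_range f hi).trace
  refine ⟨finrank ℂ (LinearMap.range f), ?_, fun h0 v => ?_⟩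
  · rw [← htr, hf, map_smul, map_sub, smul_eq_mul]
    ring
  · have hb : LinearMap.range f = ⊥ := Submodule.finrank_eq_zero.1 h0
    have hv : f v = 0 := by
      have : f v ∈ LinearMap.range f := LinearMap.mem_range_self f v
      rwa [hb, Submodule.mem_bot] at this
    rw [hf, LinearMap.smul_apply, smul_eq_zero] at hv
    rcases hv with hv | hv
    · norm_num at hv
    · rw [LinearMap.sub_apply, sub_eq_zero] at hv
      exact hv.symm

variable (P : WS (Fin 3) (GH H))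

lemma tr_pr (I : Finset (Fin 3)) : LinearMap.trace ℂ H (pr P I) = finrank ℂ (Se P I) :=
  LinearMap.IsProj.trace ⟨pr_mem I, fun v hv => by rw [pr_of hv, if_pos rfl]⟩

omit [FiniteDimensional ℂ H] in
lemma pr_pr (I J : Finset (Fin 3)) : pr P I * pr P J = if I = J then pr P J else 0 := by
  ext v
  rw [Module.End.mul_apply, pr_of (pr_mem J v)]
  split_ifs <;> rfl

omit [FiniteDimensional ℂ H] in
lemma sum_pr : ∑ I, pr P I = 1 := by
  ext v
  rw [LinearMap.sum_apply, pr_sum]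
  rfl

omit [FiniteDimensional ℂ H] in
/-- an automorphism permuting the sectors conjugates the projections. -/
lemma mul_pr (g : End ℂ H) (p : Perm (Fin 3))
    (h : ∀ I, ∀ v ∈ Se P I, g v ∈ Se P (I.map p.toEmbedding)) (I : Finset (Fin 3)) :
    g * pr P I = pr P (I.map p.toEmbedding) * g := by
  ext v
  rw [Module.End.mul_apply, Module.End.mul_apply]
  conv_rhs => rw [← pr_sum (P := P) v, map_sum, map_sum]
  rw [Finset.sum_eq_single I]
  · rw [pr_of (h I _ (pr_mem I v)), if_pos rfl]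
  · intro J _ hJ
    rw [pr_of (h J _ (pr_mem J v)), if_neg]
    exact fun k => hJ (Finset.map_injective _ k).symm
  · simp

omit [FiniteDimensional ℂ H] in
lemma tp_Se (a b : Fin 3) {I : Finset (Fin 3)} {v : H} (h : v ∈ Se P I) :
    tp P a b v ∈ Se P (I.map (swap a b).toEmbedding) := mem_Se.2 fun c => by
  obtain ⟨c, rfl⟩ := (swap a b).surjective c
  have := gap (tp_ε P a b c) v
  rw [gmul, gmul, mem_Se.1 h c] at this
  rw [← this]
  by_cases k : c ∈ I <;> simp [k]

lemma rk_map (p : Perm (Fin 3)) (I : Finset (Fin 3)) :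
    finrank ℂ (Se P (I.map p.toEmbedding)) = finrank ℂ (Se P I) := by
  have h := mul_pr P (P.π p).toLinearMap p (fun I v hv => π_Se p hv) I
  have h2 : pr P (I.map p.toEmbedding) =
      (P.π p).toLinearMap * (pr P I * (P.π p).symm.toLinearMap) := by
    rw [← mul_assoc, h]
    ext v
    simp
  have h3 : pr P I * (P.π p).symm.toLinearMap * (P.π p).toLinearMap = pr P I := by
    ext v
    simp
  have := tr_pr P (I.map p.toEmbedding)
  rw [h2, LinearMap.trace_mul_comm, h3, tr_pr] at this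
  exact_mod_cast this.symm

lemma rk_one (c : Fin 3) : finrank ℂ (Se P {c}) = finrank ℂ (Se P {0}) ∧
    finrank ℂ (Se P {c}ᶜ) = finrank ℂ (Se P {0}ᶜ) := by
  have h1 : ({c} : Finset (Fin 3)) = Finset.map (swap 0 c).toEmbedding {0} := by
    revert c; decide
  have h2 : ({c}ᶜ : Finset (Fin 3)) = Finset.map (swap 0 c).toEmbedding {0}ᶜ := by
    clear h1; revert c; decide
  exact ⟨by rw [h1, rk_map], by rw [h2, rk_map]⟩

lemma sum8 {M : Type} [AddCommMonoid M] (f : Finset (Fin 3) → M) {a b c : Fin 3} (d : D3 a b c) :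
    ∑ I, f I = f ∅ + f Finset.univ + (f {a} + f {a}ᶜ) + (f {b} + f {b}ᶜ) + (f {c} + f {c}ᶜ) := by
  have : (Finset.univ : Finset (Finset (Fin 3))) =
    {∅, Finset.univ, {0}, {0}ᶜ, {1}, {1}ᶜ, {2}, {2}ᶜ} := by decide
  have k := d.sum fun i => f {i} + f {i}ᶜ
  rw [Fin.sum_univ_three] at k
  rw [this]
  repeat rw [Finset.sum_insert (by decide)]
  rw [Finset.sum_singleton]
  simp only [add_assoc] at k ⊢
  rw [k]

omit [FiniteDimensional ℂ H] in
lemma tr_tp {a b : Fin 3} (h : a ≠ b) : tr (tp P a b) = tr (tp P 0 1) := by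
  obtain ⟨c, d⟩ := D3.ex h
  obtain ⟨p, h0, h1, -⟩ := D3.trans (a := 0) (b := 1) (c := 2) (by unfold D3; decide) d
  have k := π_tp P p 0 1
  rw [h0, h1] at k
  have h2 : (tp P a b).toLinearMap =
      (P.π p).toLinearMap * ((tp P 0 1).toLinearMap * (P.π p).symm.toLinearMap) := by
    ext v
    have := gap k ((P.π p).symm v)
    rw [gmul, gmul, LinearEquiv.apply_symm_apply] at this
    exact this.symm
  have h3 : (tp P 0 1).toLinearMap * (P.π p).symm.toLinearMap * (P.π p).toLinearMap =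
      (tp P 0 1).toLinearMap := by
    ext v
    simp
  unfold tr
  rw [h2, LinearMap.trace_mul_comm, h3]

omit [FiniteDimensional ℂ H] in
lemma tr_off (a b : Fin 3) {I : Finset (Fin 3)} (h : I ≠ I.map (swap a b).toEmbedding) :
    LinearMap.trace ℂ H ((tp P a b).toLinearMap * pr P I) = 0 := by
  have k := mul_pr P (tp P a b).toLinearMap (swap a b) (fun I v hv => tp_Se P a b hv) I
  have h1 : pr P I = pr P I * pr P I := by rw [pr_pr, if_pos rfl]
  rw [h1, ← mul_assoc, k, mul_assoc, LinearMap.trace_mul_comm, mul_assoc, pr_pr, if_neg h]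
  simp

lemma tr_on (a b : Fin 3) {I : Finset (Fin 3)} (h : I.map (swap a b).toEmbedding = I) :
    ∃ n : ℕ, LinearMap.trace ℂ H ((tp P a b).toLinearMap * pr P I) = finrank ℂ (Se P I) - 2 * n ∧
      (n = 0 → ∀ v ∈ Se P I, tp P a b v = v) := by
  have k := mul_pr P (tp P a b).toLinearMap (swap a b) (fun I v hv => tp_Se P a b hv) I
  rw [h] at k
  obtain ⟨n, h1, h2⟩ := tr_inv (tp P a b).toLinearMap (pr P I)
    (by ext v; exact gap (tp_sq P a b) v) (by rw [pr_pr, if_pos rfl]) k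
  refine ⟨n, by rw [h1, tr_pr], fun h0 v hv => ?_⟩
  have := h2 h0 v
  rwa [pr_of hv, if_pos rfl] at this

lemma dim_eq : finrank ℂ H = finrank ℂ (Se P ∅) + finrank ℂ (Se P Finset.univ) +
    3 * (finrank ℂ (Se P {0}) + finrank ℂ (Se P {0}ᶜ)) := by
  have h := LinearMap.trace_one ℂ H
  rw [← sum_pr P, map_sum, sum8 _ (a := 0) (b := 1) (c := 2) (by unfold D3; decide)] at h
  simp only [tr_pr, (rk_one P 1).1, (rk_one P 1).2, (rk_one P 2).1, (rk_one P 2).2] at h
  have : (finrank ℂ H : ℂ) = (finrank ℂ (Se P ∅) + finrank ℂ (Se P Finset.univ) +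
    3 * (finrank ℂ (Se P {0}) + finrank ℂ (Se P {0}ᶜ)) : ℕ) := by
    rw [← h]; push_cast; ring
  exact_mod_cast this

lemma pos (h : P.ε 0 * P.ε 1 ≠ 1) : 1 ≤ finrank ℂ (Se P {0}) + finrank ℂ (Se P {0}ᶜ) := by
  by_contra k
  apply h
  have z : ∀ c, ∀ v, pr P {c} v = 0 ∧ pr P {c}ᶜ v = 0 := fun c v => by
    have h1 : Se P {c} = ⊥ := Submodule.finrank_eq_zero.1 (by rw [(rk_one P c).1]; omega)
    have h2 : Se P {c}ᶜ = ⊥ := Submodule.finrank_eq_zero.1 (by rw [(rk_one P c).2]; omega)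
    exact ⟨by simpa [h1] using pr_mem (P := P) {c} v, by simpa [h2] using pr_mem (P := P) {c}ᶜ v⟩
  ext v
  have hv := pr_sum (P := P) v
  rw [sum8 _ (a := 0) (b := 1) (c := 2) (by unfold D3; decide)] at hv
  simp only [(z _ v).1, (z _ v).2, add_zero] at hv
  rw [gmul, gone, ← hv, map_add, map_add, Se_pos (pr_mem ∅ v) (by simp),
    Se_pos (pr_mem ∅ v) (by simp), Se_neg (pr_mem Finset.univ v) (by simp), map_neg,
    Se_neg (pr_mem Finset.univ v) (by simp), neg_neg]

lemma count (h : tr (tp P 0 1) = finrank ℂ H - 4) {a b c : Fin 3} (d : D3 a b c) :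
    ∃ n m : ℕ, finrank ℂ (Se P {0}) + finrank ℂ (Se P {0}ᶜ) + n + m = 2 ∧
      (n = 0 → ∀ v ∈ Se P {c} ⊔ Se P {c}ᶜ, tp P a b v = v) ∧
      (m = 0 → ∀ v ∈ Se P ∅ ⊔ Se P Finset.univ, tp P a b v = v) := by
  have e : {a} ≠ Finset.map (swap a b).toEmbedding {a} ∧
      {a}ᶜ ≠ Finset.map (swap a b).toEmbedding {a}ᶜ ∧
      {b} ≠ Finset.map (swap a b).toEmbedding {b} ∧
      {b}ᶜ ≠ Finset.map (swap a b).toEmbedding {b}ᶜ ∧
      Finset.map (swap a b).toEmbedding {c} = {c} ∧
      Finset.map (swap a b).toEmbedding {c}ᶜ = {c}ᶜ := by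
    clear h
    revert a b c
    unfold D3
    decide
  obtain ⟨e1, e2, e3, e4, e5, e6⟩ := e
  obtain ⟨n1, k1, l1⟩ := tr_on P a b e5
  obtain ⟨n2, k2, l2⟩ := tr_on P a b e6
  obtain ⟨n3, k3, l3⟩ := tr_on P a b (I := ∅) (by simp)
  obtain ⟨n4, k4, l4⟩ := tr_on P a b (I := Finset.univ) (by simp)
  refine ⟨n1 + n2, n3 + n4, ?_, fun h0 v hv => ?_, fun h0 v hv => ?_⟩
  · rw [← tr_tp P d.1, tr, ← mul_one (tp P a b).toLinearMap, ← sum_pr P, Finset.mul_sum, map_sum,
      sum8 _ d, tr_off P a b e1, tr_off P a b e2, tr_off P a b e3, tr_off P a b e4, k1, k2, k3, k4,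
      (rk_one P c).1, (rk_one P c).2, dim_eq P] at h
    have : ((finrank ℂ (Se P {0}) + finrank ℂ (Se P {0}ᶜ) + (n1 + n2) + (n3 + n4) : ℕ) : ℂ) =
        (2 : ℕ) := by
      push_cast at h ⊢
      linear_combination (-1 / 2 : ℂ) * h
    exact_mod_cast this
  · obtain ⟨x, hx, y, hy, rfl⟩ := Submodule.mem_sup.1 hv
    rw [map_add, l1 (by omega) x hx, l2 (by omega) y hy]
  · obtain ⟨x, hx, y, hy, rfl⟩ := Submodule.mem_sup.1 hv
    rw [map_add, l3 (by omega) x hx, l4 (by omega) y hy]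

end H6

theorem scnt : SCnt := by
  intro H _ _ _ P h6 h1 ht
  have hp := H6.pos P h1
  have hd := H6.dim_eq P
  obtain ⟨n0, m0, k0, -⟩ := H6.count P ht (a := 0) (b := 1) (c := 2) (by unfold D3; decide)
  by_cases k : finrank ℂ (Se P {0}) + finrank ℂ (Se P {0}ᶜ) = 1
  · refine Or.inl ⟨k, fun a b c d => ?_⟩
    obtain ⟨n, m, e, hn, hm⟩ := H6.count P ht d
    by_cases z : n = 0
    · exact Or.inl (hn z)
    · exact Or.inr (hm (by omega))
  · refine Or.inr ⟨by omega, Submodule.finrank_eq_zero.1 (by omega),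
      Submodule.finrank_eq_zero.1 (by omega), fun a b c d => ?_⟩
    obtain ⟨n, m, e, hn, -⟩ := H6.count P ht d
    exact hn (by omega)

end Pool.Agent.MP_3ce0a0_al.H79.Y
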